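import Mathlib

/-!
ROOM HO (helper349): the nested compactness argument of the `W`-route.
-/

open Filter Topology

namespace H349HO

/-- On a compact space, if `S > 0` on `{q = 0}`, then `S ≥ c₁ > 0` on `{|q| ≤ q₁}`. -/
theorem near_zero {X : Type*} [TopologicalSpace X] [CompactSpace X]
    (q S : X → ℝ) (hq : Continuous q) (hS : Continuous S) (hpos : ∀ z, q z = 0 → 0 < S z) :
    ∃ c₁ q₁ : ℝ, 0 < c₁ ∧ 0 < q₁ ∧ ∀ z, |q z| ≤ q₁ → c₁ ≤ S z := by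
  classical
  have hqa : Continuous fun z => |q z| := hq.abs
  obtain ⟨τ, hτ, hτT⟩ : ∃ τ : ℝ, 0 < τ ∧ ∀ z, q z = 0 → τ < S z := by
    by_cases hne : ({z | q z = 0} : Set X).Nonempty
    · have hcomp : IsCompact ({z | q z = 0} : Set X) :=
        (isClosed_singleton.preimage hq).isCompact
      obtain ⟨z0, hz0, hmin⟩ := hcomp.exists_isMinOn hne hS.continuousOn
      have h0 : 0 < S z0 := hpos z0 hz0
      refine ⟨S z0 / 2, by linarith, fun z hz => ?_⟩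
      have : S z0 ≤ S z := hmin hz
      linarith
    · exact ⟨1, one_pos, fun z hz => absurd ⟨z, hz⟩ hne⟩
  obtain ⟨μ, hμ, hμm⟩ : ∃ μ : ℝ, 0 < μ ∧ ∀ z, S z ≤ τ → μ ≤ |q z| := by
    by_cases hne : ({z | S z ≤ τ} : Set X).Nonempty
    · have hcomp : IsCompact ({z | S z ≤ τ} : Set X) :=
        (isClosed_Iic.preimage hS).isCompact
      obtain ⟨z0, hz0, hmin⟩ := hcomp.exists_isMinOn hne hqa.continuousOn
      have h0 : 0 < |q z0| := by
        rcases (abs_nonneg (q z0)).lt_or_eq with h | h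
        · exact h
        · have h1 : q z0 = 0 := abs_eq_zero.1 h.symm
          have := hτT z0 h1
          have h2 : S z0 ≤ τ := hz0
          linarith
      exact ⟨|q z0|, h0, fun z hz => hmin hz⟩
    · exact ⟨1, one_pos, fun z hz => absurd ⟨z, hz⟩ hne⟩
  refine ⟨τ, μ / 2, hτ, by linarith, fun z hz => ?_⟩
  by_contra h
  have := hμm z (not_le.1 h).le
  linarith

/-- The elementary estimate behind the nested limit. -/
theorem nested_pos {X : Type*} [TopologicalSpace X] [CompactSpace X]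
    (q S0 D : X → ℝ) (hq : Continuous q) (hS0 : Continuous S0) (hD : Continuous D)
    (δ : ℝ) (hδ : 0 < δ) (hpos : ∀ z, q z = 0 → 0 < S0 z + δ * D z)
    (P : ℝ → ℝ → ℝ → X → ℝ) (P0 P1 P2 PQ : ℝ → X → ℝ) (c C : ℝ) (hc : 0 < c)
    (hT : ∀ μ τ κ z, 0 < μ → μ ≤ 1 → 0 < τ → τ ≤ 1 → 0 ≤ κ → κ ≤ 1 →
      P0 μ z + τ * P1 μ z + τ ^ 2 * P2 μ z + κ * PQ μ z - C * (τ ^ 3 + τ * κ + κ ^ 2) ≤ P μ τ κ z)
    (h0 : ∀ μ z, 0 < μ → μ ≤ 1 → P0 0 z - C * μ * q z ^ 2 ≤ P0 μ z)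
    (h1 : ∀ μ z, 0 < μ → μ ≤ 1 → |P1 μ z - P1 0 z| ≤ C * μ * |q z|)
    (h2 : ∀ μ z, 0 < μ → μ ≤ 1 → |P2 μ z - P2 0 z| ≤ C * μ)
    (hQ : ∀ μ z, 0 < μ → μ ≤ 1 → μ ^ 2 * D z - C * |q z| ≤ PQ μ z)
    (h5 : ∀ τ z, 0 < τ → τ ≤ 1 → c * q z ^ 2 + τ ^ 2 * S0 z - C * τ * q z ^ 2 ≤
      P0 0 z + τ * P1 0 z + τ ^ 2 * P2 0 z) :
    ∃ μ, 0 < μ ∧ μ ≤ 1 ∧ ∃ τ₀, 0 < τ₀ ∧ τ₀ ≤ 1 ∧ ∀ τ, 0 < τ → τ ≤ τ₀ →
      ∀ z, 0 < P μ τ (δ / μ ^ 2 * τ ^ 2) z := by
  classical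
  rcases isEmpty_or_nonempty X with hX | hX
  · exact ⟨1, one_pos, le_rfl, 1, one_pos, le_rfl, fun τ _ _ z => (hX.false z).elim⟩
  set S : X → ℝ := fun z => S0 z + δ * D z with hSdef
  have hSc : Continuous S := hS0.add (continuous_const.mul hD)
  obtain ⟨c₁, q₁, hc₁, hq₁, hnear⟩ := near_zero q S hq hSc hpos
  obtain ⟨B, hB⟩ : ∃ B : ℝ, ∀ z, |S z| ≤ B := by
    obtain ⟨B, hB⟩ := (isCompact_univ (X := X)).exists_bound_of_continuousOn hSc.continuousOn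
    exact ⟨B, fun z => hB z (Set.mem_univ z)⟩
  have hB0 : 0 ≤ B := (abs_nonneg _).trans (hB hX.some)
  set E : ℝ := |C| + 1 with hE
  have hE0 : 0 < E := by positivity
  have hCE : C ≤ E := (le_abs_self C).trans (by simp [hE])
  -- choice of `μ`
  set μ : ℝ := min 1 (min (c / (10 * E)) (c₁ / (6 * E))) with hμdef
  have hμ0 : 0 < μ := by
    refine lt_min one_pos (lt_min ?_ ?_) <;> positivity
  have hμ1 : μ ≤ 1 := min_le_left _ _
  have hμc : E * μ * 10 ≤ c := by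
    have : μ ≤ c / (10 * E) := (min_le_right _ _).trans (min_le_left _ _)
    rw [le_div_iff₀ (by positivity)] at this
    linarith
  have hμc₁ : E * μ * 6 ≤ c₁ := by
    have : μ ≤ c₁ / (6 * E) := (min_le_right _ _).trans (min_le_right _ _)
    rw [le_div_iff₀ (by positivity)] at this
    linarith
  set k : ℝ := δ / μ ^ 2 with hk
  have hk0 : 0 < k := by positivity
  have hkμ : k * μ ^ 2 = δ := by rw [hk]; field_simp
  -- choice of `τ₀`
  set F : ℝ := E * (2 + 2 * k + k ^ 2) with hF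
  have hF0 : 0 < F := by positivity
  set τ₀ : ℝ := min (min 1 μ) (min (1 / (1 + k)) (min (min (c / (4 * F)) (c₁ / (4 * F)))
    (c * q₁ ^ 2 / (4 * (B + c₁ + 1))))) with hτ₀
  have hτ₀0 : 0 < τ₀ := by
    refine lt_min (lt_min one_pos hμ0) (lt_min ?_ (lt_min (lt_min ?_ ?_) ?_)) <;> positivity
  refine ⟨μ, hμ0, hμ1, τ₀, hτ₀0, (min_le_left _ _).trans (min_le_left _ _), ?_⟩
  intro τ hτ hττ₀ z
  have t1 : τ ≤ 1 := hττ₀.trans ((min_le_left _ _).trans (min_le_left _ _))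
  have tμ : τ ≤ μ := hττ₀.trans ((min_le_left _ _).trans (min_le_right _ _))
  have tk : τ * (1 + k) ≤ 1 := by
    have : τ ≤ 1 / (1 + k) := hττ₀.trans ((min_le_right _ _).trans (min_le_left _ _))
    rwa [le_div_iff₀ (by positivity)] at this
  have tF : F * τ * 4 ≤ c := by
    have : τ ≤ c / (4 * F) := hττ₀.trans ((min_le_right _ _).trans ((min_le_right _ _).trans
      ((min_le_left _ _).trans (min_le_left _ _))))
    rw [le_div_iff₀ (by positivity)] at this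
    linarith
  have tF₁ : F * τ * 4 ≤ c₁ := by
    have : τ ≤ c₁ / (4 * F) := hττ₀.trans ((min_le_right _ _).trans ((min_le_right _ _).trans
      ((min_le_left _ _).trans (min_le_right _ _))))
    rw [le_div_iff₀ (by positivity)] at this
    linarith
  have tB : τ * (B + c₁ + 1) * 4 ≤ c * q₁ ^ 2 := by
    have : τ ≤ c * q₁ ^ 2 / (4 * (B + c₁ + 1)) := hττ₀.trans ((min_le_right _ _).trans
      ((min_le_right _ _).trans (min_le_right _ _)))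
    rw [le_div_iff₀ (by positivity)] at this
    linarith
  have hτ2 : τ ^ 2 ≤ τ := by nlinarith
  have hκ0 : 0 ≤ k * τ ^ 2 := by positivity
  have hκ1 : k * τ ^ 2 ≤ 1 := by nlinarith
  have e1 := hT μ τ (k * τ ^ 2) z hμ0 hμ1 hτ t1 hκ0 hκ1
  have e2 := h0 μ z hμ0 hμ1
  have e3 := (abs_le.1 (h1 μ z hμ0 hμ1)).1
  have e4 := (abs_le.1 (h2 μ z hμ0 hμ1)).1
  have e5 := hQ μ z hμ0 hμ1
  have e6 := h5 τ z hτ t1
  set y : ℝ := |q z| with hy
  have hy0 : 0 ≤ y := abs_nonneg _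
  have hyq : q z ^ 2 = y ^ 2 := (sq_abs _).symm
  rw [hyq] at e2 e6
  have hμ00 := hμ0.le
  have hτ00 := hτ.le
  -- replace `C` by `E`
  have f1 : C * (τ ^ 3 + τ * (k * τ ^ 2) + (k * τ ^ 2) ^ 2) ≤
      E * (1 + k + k ^ 2) * τ * τ ^ 2 := by
    have a1 : C * (τ ^ 3 + τ * (k * τ ^ 2) + (k * τ ^ 2) ^ 2) ≤
        E * (τ ^ 3 + τ * (k * τ ^ 2) + (k * τ ^ 2) ^ 2) :=
      mul_le_mul_of_nonneg_right hCE (by positivity)
    have a2 : (k * τ ^ 2) ^ 2 ≤ k ^ 2 * τ ^ 3 := by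
      have : τ ^ 4 ≤ τ ^ 3 := by nlinarith [pow_pos hτ 3]
      calc (k * τ ^ 2) ^ 2 = k ^ 2 * τ ^ 4 := by ring
        _ ≤ k ^ 2 * τ ^ 3 := mul_le_mul_of_nonneg_left this (by positivity)
    have a3 : E * (k * τ ^ 2) ^ 2 ≤ E * (k ^ 2 * τ ^ 3) := mul_le_mul_of_nonneg_left a2 hE0.le
    nlinarith
  have f2 : C * μ * y ^ 2 ≤ E * μ * y ^ 2 := by
    have : C * (μ * y ^ 2) ≤ E * (μ * y ^ 2) := mul_le_mul_of_nonneg_right hCE (by positivity)
    linarith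
  have f3 : τ * (C * μ * y) ≤ E * μ * (y ^ 2 + τ ^ 2) / 2 := by
    have a1 : C * (μ * (τ * y)) ≤ E * (μ * (τ * y)) :=
      mul_le_mul_of_nonneg_right hCE (by positivity)
    have a2 : τ * y ≤ (y ^ 2 + τ ^ 2) / 2 := by nlinarith [sq_nonneg (τ - y)]
    have a3 : E * μ * (τ * y) ≤ E * μ * ((y ^ 2 + τ ^ 2) / 2) :=
      mul_le_mul_of_nonneg_left a2 (by positivity)
    linarith
  have f4 : τ ^ 2 * (C * μ) ≤ E * μ * τ ^ 2 := by
    have : C * (μ * τ ^ 2) ≤ E * (μ * τ ^ 2) := mul_le_mul_of_nonneg_right hCE (by positivity)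
    linarith
  have f5 : k * τ ^ 2 * (C * y) ≤ E * k * τ * (y ^ 2 + τ ^ 2) / 2 := by
    have a1 : C * (k * τ * (τ * y)) ≤ E * (k * τ * (τ * y)) :=
      mul_le_mul_of_nonneg_right hCE (by positivity)
    have a2 : τ * y ≤ (y ^ 2 + τ ^ 2) / 2 := by nlinarith [sq_nonneg (τ - y)]
    have a3 : E * k * τ * (τ * y) ≤ E * k * τ * ((y ^ 2 + τ ^ 2) / 2) :=
      mul_le_mul_of_nonneg_left a2 (by positivity)
    linarith
  have f6 : C * τ * y ^ 2 ≤ E * μ * y ^ 2 := by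
    have a1 : C * (τ * y ^ 2) ≤ E * (τ * y ^ 2) :=
      mul_le_mul_of_nonneg_right hCE (by positivity)
    have a2 : E * (τ * y ^ 2) ≤ E * (μ * y ^ 2) :=
      mul_le_mul_of_nonneg_left (mul_le_mul_of_nonneg_right tμ (by positivity)) hE0.le
    linarith
  -- multiply the hypotheses
  have g3 : τ * P1 0 z - τ * (C * μ * y) ≤ τ * P1 μ z := by nlinarith
  have g4 : τ ^ 2 * P2 0 z - τ ^ 2 * (C * μ) ≤ τ ^ 2 * P2 μ z := by
    have : 0 ≤ τ ^ 2 := by positivity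
    nlinarith
  have g5 : δ * τ ^ 2 * D z - k * τ ^ 2 * (C * y) ≤ k * τ ^ 2 * PQ μ z := by
    have a1 : k * τ ^ 2 * (μ ^ 2 * D z - C * y) ≤ k * τ ^ 2 * PQ μ z :=
      mul_le_mul_of_nonneg_left e5 hκ0
    have a2 : k * τ ^ 2 * (μ ^ 2 * D z - C * y) = (k * μ ^ 2) * τ ^ 2 * D z
      - k * τ ^ 2 * (C * y) := by ring
    rw [a2, hkμ] at a1
    exact a1
  -- the resulting lower bound
  have main : y ^ 2 * (c - E * μ * (5 / 2) - E * k * τ / 2) +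
      τ ^ 2 * (S z - E * μ * (3 / 2) - E * k * τ / 2 - E * (1 + k + k ^ 2) * τ) ≤
      P μ τ (k * τ ^ 2) z := by
    have : S z = S0 z + δ * D z := rfl
    nlinarith
  have hEkτ : E * k * τ / 2 ≤ F * τ := by
    rw [hF]
    have : 0 ≤ E * τ * (2 + 3 / 2 * k + k ^ 2) := by positivity
    nlinarith
  have hEkτ2 : E * k * τ / 2 + E * (1 + k + k ^ 2) * τ ≤ F * τ := by
    rw [hF]
    have : 0 ≤ E * τ * (1 + 1 / 2 * k) := by positivity
    nlinarith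
  have hy2 : 0 ≤ y ^ 2 := sq_nonneg _
  have hτ2p : 0 < τ ^ 2 := by positivity
  have m1 : y ^ 2 * (c / 2) ≤ y ^ 2 * (c - E * μ * (5 / 2) - E * k * τ / 2) :=
    mul_le_mul_of_nonneg_left (by linarith) hy2
  have m2 : τ ^ 2 * (S z - c₁ / 2) ≤
      τ ^ 2 * (S z - E * μ * (3 / 2) - E * k * τ / 2 - E * (1 + k + k ^ 2) * τ) :=
    mul_le_mul_of_nonneg_left (by linarith) hτ2p.le
  have main2 : y ^ 2 * (c / 2) + τ ^ 2 * (S z - c₁ / 2) ≤ P μ τ (k * τ ^ 2) z := by linarith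
  refine lt_of_lt_of_le ?_ main2
  by_cases hcase : y ≤ q₁
  · have h3 : c₁ ≤ S z := hnear z hcase
    have h4 : 0 < τ ^ 2 * (S z - c₁ / 2) := mul_pos hτ2p (by linarith)
    have h5 : 0 ≤ y ^ 2 * (c / 2) := by positivity
    linarith
  · have h3 : q₁ < y := not_le.1 hcase
    have h4 : q₁ ^ 2 ≤ y ^ 2 := pow_le_pow_left₀ hq₁.le h3.le 2
    have h6 : -B ≤ S z := (abs_le.1 (hB z)).1
    have h7 : τ ^ 2 * (-(B + c₁)) ≤ τ ^ 2 * (S z - c₁ / 2) :=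
      mul_le_mul_of_nonneg_left (by linarith) hτ2p.le
    have h8 : τ ^ 2 * (B + c₁) ≤ τ * (B + c₁ + 1) := by
      have : τ ^ 2 * (B + c₁) ≤ τ * (B + c₁) := mul_le_mul_of_nonneg_right hτ2 (by positivity)
      nlinarith
    have h9 : 0 < c * q₁ ^ 2 := by positivity
    have h10 : q₁ ^ 2 * (c / 2) ≤ y ^ 2 * (c / 2) := mul_le_mul_of_nonneg_right h4 (by positivity)
    linarith

end H349HO
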